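import Pool.Agent.Run7.h798.Tate.Full

/-!
# MP_0da4e0_ag, Q1: full faithfulness of the Hodge realization and singular cubic hypersurfaces

`k` is an algebraically closed field with an embedding in the field of complex numbers, `M` is the
category of motives for absolute Hodge cycles over `k` and `H : M ⥤ W` is the Hodge realization.
`h j X` is the motive of weight zero of the lowest weight part of `H_{2j}(X)(j)`.
-/

set_option autoImplicit false

open CategoryTheory AlgebraicGeometry Pool.Agent.Y116.UV Pool.Agent.Q193.LT Pool.Agent.Q282.UK
  Pool.Agent.Q282.UZ Run7.h798.UV Run7.h798.Tate Run7.h798.Tate.Full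

universe v u v' u'

namespace Pool.Agent.Results.MP_0da4e0_ag.CubicHypersurfaces

/-- **Theorem.** Let `N` be a natural number. The following are equivalent:

* (Q1 for `k`) the realization functor `H` is full (so fully faithful);
* for all separated schemes `X` of finite type over `k` and all `j` the Hodge classes in the lowest
  weight part of `H_{2j}(X)(j)` are absolute Hodge classes;
* this is true in the dimensions `j ≥ N` for the (singular) cubic hypersurfaces in the projective spaces
  over `k`;
* this is true in the dimensions `j ≥ N` for the cubic hypersurfaces given by trilinear forms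
  `∑ T_{ijl} x_i y_j z_l` over `k`. -/
theorem result {k : Type} [Field k] {M : Type u} [Category.{v} M] [Abelian M] {W : Type u'}
    [Category.{v'} W] [Preadditive W] (H : M ⥤ W) [H.Additive] (D : Theory k M) (hR : D.Rigid H)
    (N : ℕ) : [H.Full, D.AllClasses H, D.Cubics H N, D.Trilinear H N].TFAE :=
  main H hR N

end Pool.Agent.Results.MP_0da4e0_ag.CubicHypersurfaces
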