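import Mathlib
import Pool.Agent.Run7.h879.HC.Bridge
import Pool.Agent.Y1.HZ.Betti
import Pool.Agent.Run7.h879.HC.Real

/-!
# The Hodge realization is full on the motives of the products of all varieties with abelian
# varieties of CM type:
# a definite proportion of all CM types of every CM field of degree `2 r ^ k`

Let `K i` be finitely many CM fields of degrees `2 g i`, pairwise independent: for `i ≠ k` and all
complex embeddings `φ` of `K i` and `ψ` of `K k` some automorphism of `ℂ` is the identity on `φ (K
i)` and the complex conjugation on `ψ (K k)` (this is no condition for one field). Nothing is
assumed about their Galois groups. There are `2 ^ (∑ g i)` families of CM types `Φ i` of the fields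
`K i`. Let `A` be a product of copies of the complex abelian varieties of the CM types `(K i, Φ i)`,
given by the inclusion `per Φ t` of its rational homology `W` in its tangent space.

The variety `Z` is *unrelated* to the fields `K i` (`UnrelatedHodge`): let `w ≠ 0` be a complex
cohomology class on `Z` such that for each automorphism `σ` of `ℂ` the conjugate `σ w` is of pure
type, a sum of classes of types `(p, q)` with `p - q = d σ`. For all such `w` a function `n` on the
complex embeddings of `K i` with `n (conj φ) = - n φ` which is invariant under all automorphisms `τ`
of `ℂ` with `d (σ τ) = d σ` for all `σ` is zero. So it is true for all CM fields if the cohomology
of `Z` has no sub-Hodge structures with complex multiplication except those of type `(p, p)`. And it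
is true (`BettiCriterion`, last part of the theorem) if all Betti numbers of `Z` are less than `2
dim S` for all nonzero spaces `S` of functions `n` with `n (conj φ) = - n φ` that are stable under
the automorphisms of `ℂ`; for a CM field of degree `2 g` with only one such space this is the
condition that **all Betti numbers of `Z` are less than `2 g`**, and nothing else is assumed about
`Z`: neither its Hodge classes nor their algebraicity or absoluteness are known.

The cohomology of `Z` is given by `V : Coh v` (starting files): it is a rational space with a basis
of homogeneous elements and the Hodge operator `V.z`, which is the multiplication by `p - q` on the
classes of type `(p, q)`; `HAZ W v` is the cohomology of `A × Z` (the forms on the homology `W` of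
`A` with values in the cohomology of `Z`), `IsHodgeOnProduct` says that a class is a Hodge class,
and `crossSpan` is the span of the classes `f ⊗ x`, `f` a combination of products of divisor classes
on `A` and `x` a Hodge class on `Z`.

Let `k` be an algebraically closed field with an embedding `σ` in `ℂ`, and let `A` and `Z` be
defined over `k`; the complex varieties above are `σ A` and `σ Z`.

**The property `Q`** (`FullTimes`) of a family of types: for all such `A` and **all** smooth
projective varieties `Z` over `k` such that `σ Z` is unrelated to the fields `K i`

* every Hodge class on `σ A × σ Z` is in `crossSpan`;
* **every Hodge class on `σ A × σ Z` is the image of an absolute Hodge class on `A × Z` over `k`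
  (`FullAZ`) if and only if every Hodge class on `σ Z` is the image of an absolute Hodge class on
  `Z` (`FullZ`).**

The morphisms from the unit object to the Tate twists of the motive of a variety `X` are the
absolute Hodge classes on `X`, and those of their Hodge realizations are the Hodge classes on `σ X`.
So Q1 for these morphisms and `X = A × Z` is equivalent to Q1 for them and `X = Z`. The morphisms of
Hodge structures between the realizations of the motives of `A × Z` and `A' × Z'` are, by duality,
Hodge classes on `(A × A') × (Z × Z')`: if `σ Z × σ Z'` is unrelated to the fields `K i` then the
realization is full on the morphisms between the motives of `A × Z` and `A' × Z'` (of all Tate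
twists and direct summands) if it is full on the classes on `Z × Z'`. For instance it is full if `Z
× Z'` is a variety with motive in `M_k^av` (curves, K3 surfaces, Fermat hypersurfaces) or of
dimension at most three.

The definition of absolute Hodge classes (`IsAbs`, `IsAbsA`) is the one of the problem. Given are
(`Realizations`) the products `R.L` of the de Rham cohomology over `k` and the étale cohomology of
`Z` and `A × Z` (`Components`), the same for `σ` (`R.L₀`) and for all embeddings `τ` of `k` in `ℂ`
(`R.L' τ`), the base change maps `R.b₀`, `R.b τ`, and the comparison maps `R.c₀`, `R.c τ` with the
rational cohomology of the complex varieties `P`, `R.Q τ`. Two properties of these maps are used: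
they are compatible with the restriction to the fibre over the origin; and (`same`) for a
combination `f` of products of divisor classes on `σ A` there is a map `g` on the cohomology over
`k` (the product with the class of the same cycle, which is defined over the algebraically closed
field `k` up to algebraic equivalence), to which correspond the product with `f` and for all `τ` the
product with a combination `f'` of products of divisor classes on `τ A` (`Corresponds`).

**The theorem.** Let `E` be **any CM field of degree `2 g = 2 r ^ k`**, `r` a prime number, of
degree at least `16` if `r = 2`. Nothing is assumed about the Galois group of the normal closure of
`E`, and nothing about the subfields of `E`.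

* (`ForProportion`) The property `Q` is true for **at least `(1 - 1 / r) 2 ^ g` of the `2 ^ g` CM
  types of `E`**; so for at least one half of them if `r = 2`, and for more if `r` is odd.
* (`ForOneOfTwo`) There is a set `B` of embeddings of `E`, stable under complex conjugation, such
  that for **every** CM type `Φ` it is true for `Φ` or for the symmetric difference of `Φ` and `B`.
* (`ForSixteenPercent`) There is a number `g₀` such that for every CM field that is **abelian over
  `ℚ`**, of any degree `2 g ≥ 2 g₀`, it is true for at least 16 percent of all `2 ^ g` types.

All this is proved more generally for finitely many pairwise independent fields `K i`; the
proportions are then multiplied. The estimate `AllCMFieldsTimes` says nothing for these fields if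
they have many CM subfields (for instance for the multiquadratic ones).

The proof: if the types are not degenerate then all Hodge classes on `A × Z` are in `crossSpan`
(`Y1/HZ` of the starting files, which was used there for the Hodge conjecture). It is shown here
that the products of combinations of products of divisor classes and of Hodge classes are Hodge
classes on the conjugate varieties, and that the fibre over the origin gives the converse. The
proportion of the CM types without relations is given by a theorem of the starting files (`Q29/EP`),
which was used there for slope types over finite fields.
-/

set_option autoImplicit false

namespace Pool.Agent.Results.MP_0da4e0_ag.HalfOfAllTimes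

open NumberField Module Pool.Agent.H204R3.CM Pool.Agent.H977R3.CM Pool.Agent.Y1.KN
  Pool.Agent.Y1.HZ Pool.Agent.Run7.h879.HC

/-- The property of the CM types `Φ i`. -/
def Q : CMProperty := fun _ _ _ _ _ _ Φ => FullTimes Φ

theorem notDegenerate : NotDegenerate Q := fun _ _ _ _ _ _ _ hind hΦ hnd =>
  fullTimes_of_hodgeTimes (hodgeTimes_of_not_degenerate hΦ hind fun i =>
    not_degenerate (hΦ i) (hnd i))

/-- **The Hodge realization is full on the classes on `A × Z` if and only if it is full on the classes on `Z`:
a definite proportion of all CM types of every CM field of degree `2 r ^ k`.** -/
theorem result : ForProportion Q ∧ ForOneOfTwo Q ∧ ForSixteenPercent Q ∧ BettiCriterion :=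
  ⟨forProportion notDegenerate, forOneOfTwo notDegenerate, forSixteenPercent notDegenerate,
    bettiCriterion_holds⟩

end Pool.Agent.Results.MP_0da4e0_ag.HalfOfAllTimes
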