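import Mathlib
import Pool.Agent.Run7.h8.IC.CMTimes

/-!
# The Hodge realization is full on the motives of the products of all varieties with abelian
varieties of CM type of CM fields with isolated cycles of automorphisms

Let `A` be a product of copies of the complex abelian varieties of CM types `(E i, Φ i)`, for
finitely many CM fields `E i` and CM types `Φ i` as below; it is given by the inclusion `per Φ t`
of its rational homology `W` in its tangent space.

The variety `Z` is *unrelated* to the fields `E i` (`UnrelatedHodge`): let `w ≠ 0` be a complex
cohomology class on `Z` such that for each automorphism `σ` of `ℂ` the conjugate `σ w` is of pure
type, a sum of classes of types `(p, q)` with `p - q = d σ`. For all such `w` a function `n` on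
the complex embeddings of `E i` with `n (conj φ) = - n φ` which is invariant under all
automorphisms `τ` of `ℂ` with `d (σ τ) = d σ` for all `σ` is zero. So it is true for all CM fields
if the cohomology of `Z` has no sub-Hodge structures with complex multiplication except those of
type `(p, p)`. And it is true (`BettiCriterion`, last part of the theorem) if all Betti numbers of
`Z` are less than `2 dim S` for all nonzero spaces `S` of functions `n` with `n (conj φ) = - n φ`
that are stable under the automorphisms of `ℂ`; nothing else is assumed about `Z`: neither its
Hodge classes nor their algebraicity or absoluteness are known.

The cohomology of `Z` is given by `V : Coh v` (starting files): it is a rational space with a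
basis of homogeneous elements and the Hodge operator `V.z`, which is the multiplication by `p - q`
on the classes of type `(p, q)`; `HAZ W v` is the cohomology of `A × Z` (the forms on the homology
`W` of `A` with values in the cohomology of `Z`), `IsHodgeOnProduct` says that a class is a Hodge
class, and `crossSpan` is the span of the classes `f ⊗ x`, `f` a combination of products of
divisor classes on `A` and `x` a Hodge class on `Z`. Let `k` be an algebraically closed field with
an embedding `σ` in `ℂ`, and let `A` and `Z` be defined over `k`; the complex varieties above are
`σ A` and `σ Z`.

The CM types. The excess of a complex embedding `ψ` of a CM subfield `T` of `E i` is the number
of elements of `Φ i` that extend `ψ` minus the number of the other extensions of `ψ`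
(`Pool.Agent.W527.Short.excess`). The CM types `Φ i` are arbitrary. There are two assumptions.

* (`Separated`) Different embeddings of CM subfields of the fields (equal subfields, if they lie in
  the same `E i`) have excess functions on the group of the automorphisms of `ℂ` that are not
  proportional with a positive factor. For one CM type this is equivalent to `ExcessSeparates`:
  different embeddings of the same CM subfield have different excess functions. This condition is
  necessary: otherwise there are exotic Hodge classes on some power of `A` (for instance of Weil
  type, if `T` is imaginary quadratic).
* (`AllCyclic`) For every family of CM subfields `T i` of the `E i`, `i ∈ S ≠ ∅`, some automorphism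
  `τ` of `ℂ` has an *isolated cycle* on the complex embeddings of the `T i` (`Isolated`):
  for one embedding `ψ` the cycle of `ψ` under `τ` has `n > 1` elements, where `n` is any power
  of any prime number (or `n = 2 ^ a r ^ b`, `a > 0`, `r` an odd prime number, and the cycle is
  stable under complex conjugation), and `n` does not divide the length of any other cycle,
  except for that of the complex conjugate of `ψ`. By the theorem of Chebotarev this is a
  condition on the decomposition of prime numbers: some prime number, unramified in the `T i`,
  has exactly one prime ideal, or one pair of complex conjugate prime ideals, in the fields `T i`
  whose residue degree is divisible by `n`, and this residue degree is `n`. Alternatively the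
  family may have one of the properties of the starting files: some prime number divides one of
  the discriminants of the `T i`, but its third power does not divide their product; or some
  automorphism of `ℂ` moves at least one and at most four embeddings; and if the excess functions
  are constant up to sign then `third power` and `four` may be replaced by `fourth power` and
  `six`.

An example (second part of the theorem, `IsPrimePower`), in which the condition on the CM
subfields is not a hypothesis any more: `E` is **any** CM field of degree `2 r ^ k`, `r` a prime
number, such that some automorphism of `ℂ` acts on the pairs of complex conjugate embeddings of
`E` as one cycle (`OneOrbit`; for instance some prime number is inert in the maximal real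
subfield of `E`, or is totally ramified there and does not divide the degree). `E` may have many
CM subfields, and its Galois closure can be large.

The conclusion (`FullTimes`). For all such `A` and **all** smooth projective varieties `Z` over
`k` such that `σ Z` is unrelated to the fields `E i`: every Hodge class on `σ A × σ Z` is in
`crossSpan`; and **every Hodge class on `σ A × σ Z` is the image of an absolute Hodge class on `A
× Z` over `k` (`FullAZ`) if and only if every Hodge class on `σ Z` is the image of an absolute
Hodge class on `Z` (`FullZ`).**

The morphisms from the unit object to the Tate twists of the motive of a variety `X` are the
absolute Hodge classes on `X`, and those of their Hodge realizations are the Hodge classes on `σ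
X`. So Q1 for these morphisms and `X = A × Z` is equivalent to Q1 for them and `X = Z`. The
morphisms of Hodge structures between the realizations of the motives of `A × Z` and `A' × Z'`
are, by duality, Hodge classes on `(A × A') × (Z × Z')`: if `σ Z × σ Z'` is unrelated to the
fields `E i` then the realization is full on the morphisms between the motives of `A × Z` and `A'
× Z'` (of all Tate twists and direct summands) if it is full on the classes on `Z × Z'`. For
instance it is full if `Z × Z'` is a variety with motive in `M_k^av` (curves, K3 surfaces, Fermat
hypersurfaces) or of dimension at most three.

The definitions of the absolute Hodge classes (`IsAbs`, `IsAbsA`) and of `FullTimes`, the passage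
from the Hodge classes to the absolute Hodge classes, and the data `Realizations` (the comparison
maps between the de Rham, étale and rational cohomology for all embeddings of `k`) are those of
helper879 (HalfOfAllTimes on this page, Run7/h879/HC), and the theorem on the Hodge classes on
products with abelian varieties with nondegenerate CM types is from the starting files (`Y1/HZ`).
The new part is the nondegeneracy of the CM types.

The starting file MP_e12fcd_ag HodgeRingOfPowers (W527) has the criterion for families of CM
subfields with the alternative properties in `AllCyclic`, and with automorphisms which act on the
pairs of conjugate embeddings as one cycle of odd *prime* length and *fix all other embeddings*.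
New is that the length can be any prime power, including powers of two, or `2 ^ a r ^ b`, and that
the other embeddings can move, as long as the lengths of their cycles are not divisible by `n`; so
the second part of the theorem is new for all `k > 1`. The descent to the CM subfields is that of
the starting files (`Pool.Agent.W527`).

The proof. A relation between the half systems of the embeddings gives an odd function `c` on the
embeddings of a family of CM subfields, as small as possible, such that `∑ c (z) w (g z) = 0` for
all automorphisms `g`, where `w` is the excess. We apply this to `g τ ^ j`, multiply by `ζ ^
(-j)`, where `ζ` is a primitive `n`-th root of unity, and sum over `j`. The cycles whose length is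
not divisible by `n` do not contribute. So for all automorphisms `h`, `g` the product of `∑ c (h τ
^ i ψ) ζ ^ i` and of `∑ w (g τ ^ j ψ) ζ ^ (-j)` is zero. If the first sum is zero for all `h`,
then the irreducibility of the cyclotomic polynomial gives `c (h ψ) = c (h τ ^ (n / r) ψ)` for all
`h`, so that `c` comes from smaller CM subfields, a contradiction. If not, then in the same way `w
(g ψ) = w (g τ ^ (n / r) ψ)` for all `g`: the excess functions of two embeddings agree.
-/

set_option autoImplicit false

namespace Pool.Agent.Results.MP_0da4e0_ag.IsolatedCyclesTimes

open Pool.Agent.W547.KB Pool.Agent.Y1.HZ Pool.Agent.Run7.h879.HC Run7.h8.IC.CMT

/-- **The Hodge realization is full on the classes on `A × Z` if and only if it is full on the classes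
on `Z`, for the abelian varieties `A` of CM type of CM fields with isolated cycles.** -/
theorem result :
    (∀ (ι : Type) [Fintype ι] (A : ι → CMPair), AllCyclic A → Separated A →
      FullTimes fun i => (A i).Φ) ∧
    (∀ A : CMPair, IsPrimePower A → ExcessSeparates A → FullTimes fun _ : Unit => A.Φ) ∧
    BettiCriterion :=
  ⟨fun _ _ _ hc hs => fullTimes hc hs,
    fun _ h h' => fullTimes (allCyclic_single h) (separated_single h'), bettiCriterion_holds⟩

end Pool.Agent.Results.MP_0da4e0_ag.IsolatedCyclesTimes
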