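import Pool.Agent.Run7.h552.PG.Cl

/-!
# Hodge classes on products are generated by those on pairs

Let `W` be a Weil cohomology whose coefficient field is isomorphic to `ℂ`, for a class of varieties
which is closed under products, and let a group `Γ` with a character `χ` act on the cohomology rings
of certain varieties, with the formal properties of a Galois action or of the action of a
Mumford-Tate group. A class in `H^(2n)(V)` on which a subgroup of finite index acts by `χ ^ n` is
called a *Tate class*. If `W` is singular cohomology with complex coefficients and `Γ` is the
Mumford-Tate group, the Tate classes are the linear combinations of Hodge classes (Deligne); the
reader may keep this case in mind. Then it is the question of the page, whether the Hodge classes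
are absolute Hodge classes; these form a *theory of special classes* `𝒞` (`ClassTheory`): they
are closed under products, pull-backs and push-forwards.

A *piece* of the cohomology of a variety `X` is a stable subspace, in one degree, which is irreducible
under all subgroups of finite index, carries a nondegenerate symmetric or alternating form which is
preserved up to a character, and satisfies a local condition (`LocalType`), on one element of the
group. For the Mumford-Tate group, this element may be the cocharacter of the Hodge structure; then
it is a condition on the Hodge numbers which holds, for example, for the Hodge structures of type K3
(Hodge numbers `1, q, 1` with `q ≠ 2`), for those of Calabi-Yau type of odd weight with an isolated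
Hodge number, and so on; or it may be a transvection (for example if the Hodge group is the full
symplectic group).

Let `X_i` be varieties whose cohomology *algebras* are generated by Hodge classes and pieces, in
finitely many ways, with any number of pieces, in any degrees. (For example curves, abelian
varieties, complete intersections, but also moduli spaces of stable bundles on curves, Hilbert
schemes of points and moduli spaces of sheaves on K3 surfaces, whose cohomology is generated by the
Kuenneth components of the Chern classes of a universal sheaf.) Suppose that two pieces are either
isomorphic up to a function on the group (`Linked`) or not (`Apart`), in degrees of the same parity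
in the first case. Let `Z` be *any* variety with which the pieces `T` are not *entangled*: there is no Lie
algebra `L` of operators on (a part `U` of) the cohomology of `Z`, stable under conjugation by the
group, with an equivariant homomorphism of Lie algebras from `L` to the operators on `T` with a
noncommutative image. It is enough that this is so for stable subspaces `U` which generate the
cohomology algebra of `Z` together with classes on which the group acts by powers of `χ`, or that the
dimension of `U` is low: `2 (dim U) ^ 2 < dim T (dim T - 1)`.

**Theorem.** (1) All Hodge classes on all products `Y = X_(L 0) × X_(L 1) × ⋯ × Z` are polynomials in
pull-backs of Hodge classes on `Z`, on the factors `X_(L a)`, and on the products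
`X_(L a) × X_(L b)` of two linked factors. (If there are pieces of orthogonal type, the number of
factors is limited, `Few`.) (2) So all Hodge classes on `Y` are absolute Hodge classes if and only if
this holds for `Z`, the factors, and the products of two linked factors; and the same with any
theory of special classes instead of absolute Hodge classes, for example motivated classes.

The idea. Over an algebraically closed field a Tate class on `Y` is a multilinear function of the
elements of the pieces, with values in the cohomology of `Z`. The local conditions, the absence of entanglement and the theorem of
Goursat show that it is killed by the Lie algebras `sp` or `so` of the classes of linked pieces,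
separately. Since the cohomology algebras are only generated by the pieces, and there may be many
relations, one has to lift an invariant element to an invariant linear combination of words in
the pieces; we choose bases in which the forms are real and orthogonal, and obtain an invariant lift by
projecting orthogonally with respect to a hermitian form on the space of words, for which the
operators of the Lie algebra are closed under adjoints. The first fundamental theorem of invariant
theory then gives products of contractions of two letters, and a contraction of letters in two
different factors is a Tate class on the product of these two factors.
-/

set_option autoImplicit false

open CategoryTheory AlgebraicGeometry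

universe u

namespace Pool.Agent.Results.MP_0da4e0_ag.PairsDecide

open Pool.Agent.H914 Pool.Agent.H914.VarClass Pool.Agent.H914.VarClass.Obj
  Pool.Agent.H914.WeilCohomology Pool.Agent.H281R3.HT Pool.Agent.TH125.Gal Run7.h552.NP
  Run7.h552.PD Run7.h552.PG

/-- The Tate (or Hodge) classes on products of varieties, whose cohomology algebras are generated by
Tate classes and pieces with symplectic or orthogonal monodromy, are generated by those on `Z`, on
the factors, and on the products of two linked factors; so they are special classes if and only if
this holds for `Z`, the factors, and the products of two linked factors. -/
theorem result {k : Type u} [Field k] {𝒱 : VarClass k} {ops : CycleOps 𝒱}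
    (W : WeilCohomology.{u, 0} ops) (e : W.K ≃+* ℂ) {Γ : Type} [Group Γ] (χ : CharOf W Γ)
    (G : Set (GVar W Γ)) {ι : Type} (X : ι → GVar W Γ) (P : ∀ i, Gens (X i)) (Z : GVar W Γ)
    (h : GenFamily χ G X P Z) {m : ℕ} (L : Fin m → ι) (Y : GVar W Γ) (hY : Tow X Z L Y)
    (hL : Few P L) :
    (∀ n x, IsTate χ Y n x → x ∈ Algebra.adjoin W.K (FromPairs χ P Z L Y)) ∧
    ∀ 𝒞 : ClassTheory W, (PairsFull χ 𝒞 P Z L → IsFull χ 𝒞 Y) ∧
      ((∀ a, HasPoint (X (L a))) → HasPoint Z → (IsFull χ 𝒞 Y ↔ PairsFull χ 𝒞 P Z L)) := by
  have : IsAlgClosed W.K := IsAlgClosed.of_ringEquiv ℂ W.K e.symm
  refine ⟨fun n x hx => mem_fromPairs e h hY hL hx, fun 𝒞 => ⟨full_of_pairs e h hY hL,
    fun h1 h2 => ⟨pairs_of_full h hY h1 h2, full_of_pairs e h hY hL⟩⟩⟩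

end Pool.Agent.Results.MP_0da4e0_ag.PairsDecide
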